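import Pool.Agent.Y150.Ch.Line

/-!
# Normal and commensurated subgroups of the holonomy of a closed affine manifold

Chern's conjecture says that closed affine manifolds have Euler characteristic zero. A closed
affine manifold with non-zero Euler characteristic has no finite covering with a vector field
without zeros (Poincare and Hopf). We prove that the holonomy of every closed affine manifold with
this property has a rigid core: after a finite covering there is an invariant affine subspace `H`
of positive dimension which meets the developing image, such that the closed affine manifold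
developed into `H` still has no tangent field without zeros over any finite covering, and such that
the holonomy group `Γ_H` on `H` has the following properties (the same holds for all of its
subgroups of finite index).

* There is no proper invariant star-shaped subset; the linear holonomy has no factors of dimension
  one; there are no semi-invariant affine vector fields, in particular the centralizer of `Γ_H` in
  the group of affine maps is trivial; every invariant convex set of affine vector fields contains
  a field with a zero on the developing image.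
* A normal subgroup of `Γ_H` is trivial or moves every finite measure to infinity. A commensurated
  subgroup is finite or moves every finite measure to infinity.
* Abelian normal subgroups are unipotent; commensurated abelian subgroups are unipotent up to
  powers; commensurated cyclic subgroups are finite.

By the known cases of the conjecture `H` has dimension at least four. So if the Euler
characteristic of a closed affine manifold of dimension four is not zero, then, after a finite
covering, the whole holonomy group has these properties: it has trivial centre, no non-trivial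
cyclic or bounded normal subgroups, no infinite cyclic or infinite bounded commensurated
subgroups, its abelian normal subgroups are unipotent, and the manifold has no affine vector
fields.
-/

set_option autoImplicit false

open Set Filter Topology MeasureTheory

namespace Pool.Agent.Results.MP_1fa9a4_gt.CommensuratedHolonomy

/-- A closed affine manifold `Γ \ X` modelled on the vector space `E`: the group `Γ` acts on the
Hausdorff space `X` properly discontinuously and with compact quotient, and the developing map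
`dev` is a local homeomorphism to `E` that is equivariant with respect to the affine holonomy
`hol`. -/
structure ClosedAffine (X Γ E : Type) [TopologicalSpace X] [Group Γ] [MulAction Γ X]
    [NormedAddCommGroup E] [NormedSpace ℝ E] (dev : X → E) (hol : Γ →* (E ≃ᵃ[ℝ] E)) : Prop where
  /-- the developing map is a local homeomorphism -/
  loc : IsLocalHomeomorph dev
  /-- the group acts by homeomorphisms -/
  cont : ∀ γ : Γ, Continuous fun x : X => γ • x
  /-- the developing map is equivariant -/
  equi : ∀ (γ : Γ) (x : X), dev (γ • x) = hol γ (dev x)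
  /-- the action is properly discontinuous -/
  pd : ∀ K : Set X, IsCompact K → {γ : Γ | ∃ x ∈ K, γ • x ∈ K}.Finite
  /-- the quotient is compact -/
  cc : ∃ K : Set X, IsCompact K ∧ ∀ x : X, ∃ γ : Γ, ∃ k ∈ K, γ • k = x

variable {X Γ E : Type} [TopologicalSpace X] [Group Γ] [MulAction Γ X] [NormedAddCommGroup E]
  [NormedSpace ℝ E]

/-- The affine action of the group on the model space. -/
def act (hol : Γ →* (E ≃ᵃ[ℝ] E)) (γ : Γ) (q : E) : E := hol γ q

/-- The linear holonomy. -/
def lin (hol : Γ →* (E ≃ᵃ[ℝ] E)) (γ : Γ) : E →ₗ[ℝ] E := (hol γ).linear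

section act

variable (φ : Γ → E → E)

/-- The set `S` is invariant under `K`. -/
def Invariant (K : Subgroup Γ) (S : Set E) : Prop := ∀ γ ∈ K, ∀ q ∈ S, φ γ q ∈ S

/-- No proper star-shaped subset of `H` is invariant under `K`. -/
def NoStar (K : Subgroup Γ) (H : Set E) : Prop :=
  ∀ (S : Set E) (p : E), p ∈ S → S ⊆ H → StarConvex ℝ p S → Invariant φ K S → S = H

/-- The subgroup `N` acts trivially on `H`. -/
def ActsTrivially (N : Subgroup Γ) (H : Set E) : Prop := ∀ a ∈ N, ∀ q ∈ H, φ a q = q

/-- Some subgroup of finite index in `N` acts trivially on `H`. -/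
def ActsFinitely (N : Subgroup Γ) (H : Set E) : Prop :=
  ∃ L ≤ N, L.relIndex N ≠ 0 ∧ ActsTrivially φ L H

/-- Every σ-finite measure on `H` is moved to infinity by a sequence in `N`. -/
def Escapes [MeasurableSpace E] (N : Subgroup Γ) (H : Set E) : Prop :=
  ∀ μ : Measure E, SFinite μ → μ Hᶜ = 0 →
    ∃ g : ℕ → Γ, (∀ k, g k ∈ N) ∧ ∀ᵐ p ∂μ, Tendsto (fun k => ‖φ (g k) p‖) atTop atTop

/-- The transformations of `H` given by the elements of `N` form a group which is normalised by
the one given by `K`. -/
def Normalises (K N : Subgroup Γ) (H : Set E) : Prop :=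
  ∀ γ ∈ K, ∀ a ∈ N, ∃ b ∈ N, ∀ q ∈ H, φ (γ * a * γ⁻¹) q = φ b q

/-- Up to powers, the conjugates by elements of `K` of the elements of `N` act on `H` as elements
of `N`. This is the case if `K` commensurates `N`. -/
def AlmostNormalises (K N : Subgroup Γ) (H : Set E) : Prop :=
  ∀ γ ∈ K, ∀ a ∈ N, ∃ n : ℕ, n ≠ 0 ∧ ∃ b ∈ N, ∀ q ∈ H, φ (γ * a ^ n * γ⁻¹) q = φ b q

/-- The elements of `N` commute as transformations of `H`. -/
def Commute (N : Subgroup Γ) (H : Set E) : Prop :=
  ∀ a ∈ N, ∀ b ∈ N, ∀ q ∈ H, φ a (φ b q) = φ b (φ a q)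

end act

section lin

variable (φ : Γ → E → E) (l : Γ → E →ₗ[ℝ] E)

/-- The linear subspace `W` is invariant under `K`. -/
def LinInvariant (K : Subgroup Γ) (W : Submodule ℝ E) : Prop := ∀ γ ∈ K, ∀ v ∈ W, l γ v ∈ W

/-- There is no one-dimensional factor in the linear action of `K` on `V`. -/
def NoLine (K : Subgroup Γ) (V : Submodule ℝ E) : Prop :=
  ∀ W W' : Submodule ℝ E, W ≤ W' → W' ≤ V → LinInvariant l K W → LinInvariant l K W' →
    Module.finrank ℝ W' ≠ Module.finrank ℝ W + 1

/-- The affine transformation of `H` given by `a` is unipotent. -/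
def Unipotent (a : Γ) (H : Set E) : Prop :=
  ∃ k : ℕ, ∀ q ∈ H, ((l a - LinearMap.id : Module.End ℝ E) ^ k) (φ a q - q) = 0

/-- The affine manifold `K \ dev⁻¹(H)`, where `H` is an affine subspace with the direction `V`,
has a continuous vector field without zeros. For `H = E` this is a vector field without zeros on
the covering `K \ X` of `Γ \ X`. -/
def HasField (dev : X → E) (K : Subgroup Γ) (H : Set E) (V : Submodule ℝ E) : Prop :=
  ∃ Z : X → E, ContinuousOn Z {x | dev x ∈ H} ∧ (∀ x, dev x ∈ H → Z x ∈ V ∧ Z x ≠ 0) ∧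
    ∀ γ ∈ K, ∀ x : X, dev x ∈ H → Z (γ • x) = l γ (Z x)

/-- The map `Y` is an affine vector field on the affine subspace `H` with direction `V`. -/
def AffineField (H : Set E) (V : Submodule ℝ E) (Y : E → E) : Prop :=
  (∃ f : E →ᵃ[ℝ] E, f = Y) ∧ ∀ p ∈ H, Y p ∈ V

/-- The restrictions to `H` of the vector fields `Y` and `Y'` satisfy `γ_* Y = c Y'`. -/
def MapsField (γ : Γ) (c : ℝ) (Y Y' : E → E) (H : Set E) : Prop :=
  ∀ p ∈ H, l γ (Y p) = c • Y' (φ γ p)

/-- Affine vector fields on `H` which are invariant under `K` up to scalars vanish. -/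
def NoSemiInvariant (K : Subgroup Γ) (H : Set E) (V : Submodule ℝ E) : Prop :=
  ∀ Y : E → E, AffineField H V Y → (∀ γ ∈ K, ∃ c : ℝ, c ≠ 0 ∧ MapsField φ l γ c Y Y H) →
    ∀ p ∈ H, Y p = 0

/-- Every `K`-invariant convex set of affine vector fields on `H` contains a field with a zero on
the developing image. -/
def HasZero (dev : X → E) (K : Subgroup Γ) (H : Set E) (V : Submodule ℝ E) : Prop :=
  ∀ C : Set (E → E), Convex ℝ C → C.Nonempty → (∀ Y ∈ C, AffineField H V Y) →
    (∀ γ ∈ K, ∀ Y ∈ C, ∃ Y' ∈ C, MapsField φ l γ 1 Y Y' H) →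
    ∃ Y ∈ C, ∃ x, dev x ∈ H ∧ Y (dev x) = 0

/-- Properties of the subgroups `N` of `G` which are normalised or commensurated by `K`. -/
structure SubgroupLaws [MeasurableSpace E] (K G : Subgroup Γ) (H : Set E) : Prop where
  /-- normal subgroups are trivial or move measures to infinity -/
  normal : ∀ N ≤ G, Normalises φ K N H → ActsTrivially φ N H ∨ Escapes φ N H
  /-- commensurated subgroups are finite or move measures to infinity -/
  commensurated : ∀ N ≤ G, K ≤ Subgroup.Commensurable.commensurator N →
    ActsFinitely φ N H ∨ Escapes φ N H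
  /-- abelian normal subgroups are unipotent -/
  abelian_normal : ∀ N ≤ G, Commute φ N H → Normalises φ K N H → ∀ a ∈ N, Unipotent φ l a H
  /-- commensurated abelian subgroups are unipotent up to powers -/
  abelian : ∀ N ≤ G, Commute φ N H → AlmostNormalises φ K N H →
    ∀ a ∈ N, ∃ n : ℕ, n ≠ 0 ∧ Unipotent φ l (a ^ n) H
  /-- commensurated cyclic subgroups are finite -/
  cyclic : ∀ a ∈ G,
    (∀ γ ∈ K, ∃ n : ℕ, n ≠ 0 ∧ ∃ m : ℤ, ∀ q ∈ H, φ (γ * a ^ n * γ⁻¹) q = φ (a ^ m) q) →
    ∃ n : ℕ, n ≠ 0 ∧ ∀ q ∈ H, φ (a ^ n) q = q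

/-- The properties of the action of `G` on the affine subspace `H` with direction `V`, for the
subgroup `K` of finite index. -/
structure RigidFor [MeasurableSpace E] (dev : X → E) (K G : Subgroup Γ) (H : Set E)
    (V : Submodule ℝ E) : Prop where
  /-- the covering `K \ dev⁻¹(H)` has no field without zeros -/
  no_field : ¬ HasField l dev K H V
  no_star : NoStar φ K H
  no_line : NoLine l K V
  no_semi_invariant : NoSemiInvariant φ l K H V
  has_zero : HasZero φ l dev K H V
  laws : SubgroupLaws φ l K G H

end lin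

/-- The action of `G` on `H` is rigid: the properties hold for all subgroups `K` of finite
index. -/
def Rigid [MeasurableSpace E] (dev : X → E) (hol : Γ →* (E ≃ᵃ[ℝ] E)) (G : Subgroup Γ)
    (H : AffineSubspace ℝ E) : Prop :=
  ∀ K ≤ G, K.FiniteIndex → RigidFor (act hol) (lin hol) dev K G H H.direction

/-- **Theorem.** Let `Γ \ X` be a closed affine manifold of positive dimension, with `X` connected,
such that no finite covering of it has a vector field without zeros (this is the case if its Euler
characteristic is not zero). Then there are a subgroup `G` of finite index and a `G`-invariant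
affine subspace `H` of positive dimension, which meets the developing image, such that the
action of `G` on `H` is rigid. -/
theorem result [T2Space X] [ConnectedSpace X] [FiniteDimensional ℝ E] [Nontrivial E]
    [MeasurableSpace E] [BorelSpace E] {dev : X → E} {hol : Γ →* (E ≃ᵃ[ℝ] E)}
    (D : ClosedAffine X Γ E dev hol)
    (hno : ∀ K : Subgroup Γ, K.FiniteIndex → ¬ HasField (lin hol) dev K univ ⊤) :
    ∃ (G : Subgroup Γ) (H : AffineSubspace ℝ E), G.FiniteIndex ∧ Invariant (act hol) G H ∧
      H.direction ≠ ⊥ ∧ (∃ x, dev x ∈ H) ∧ Rigid dev hol G H := by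
  have D' : Pool.Agent.W689.Ch.AffMfd X Γ E dev hol := ⟨D.loc, D.cont, D.equi, D.pd, D.cc⟩
  obtain ⟨G, H, x₀, m⟩ := Pool.Agent.Y150.Ch.exists_min D' (fun K hK ⟨Z, h1, h2, h3⟩ =>
    hno K hK ⟨Z, h1, fun x _ => ⟨trivial, (h2 x trivial).2⟩, fun γ hγ x _ => h3 ⟨γ, hγ⟩ x trivial⟩)
  refine ⟨G, H, m.fin, m.inv, m.dir, ⟨x₀, m.mem⟩, ?_⟩
  intro K hK hKf
  have hstar : ∀ (S : Set E) (p : E), p ∈ S → S ⊆ H →
      StarConvex ℝ p S → (∀ γ ∈ K, ∀ q ∈ S, hol γ q ∈ S) → S = H := m.star K hK hKf
  refine ⟨fun ⟨Z, h1, h2, h3⟩ => m.fld K hK hKf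
    ⟨Z, h1, h2, fun γ x hx => h3 γ.1 γ.2 x hx⟩, hstar, ?_, ?_, ?_, ?_, ?_, ?_, ?_, ?_⟩
  · exact fun W W' h1 h2 h3 h4 => Pool.Agent.Y150.Ch.no_line D' m hK hKf h1 h2 h3 h4
  · rintro Y ⟨⟨f, rfl⟩, h1⟩ h2
    exact Pool.Agent.Y150.Ch.semi_zero D' m hK hKf f h1 h2
  · intro C h1 h2 h3 h4
    obtain ⟨f, hf, x, hx⟩ := Pool.Agent.Y150.Ch.zero_field D' m hK hKf
      (C := {f : E →ᵃ[ℝ] E | (f : E → E) ∈ C})
      (fun f hf g hg s t hs ht hst => h1 hf hg hs ht hst) (fun f hf => (h3 _ hf).2) (by
        obtain ⟨Y, hY⟩ := h2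
        obtain ⟨⟨f, rfl⟩, -⟩ := h3 Y hY
        exact ⟨f, hY⟩)
      (fun γ hγ f hf => by
        obtain ⟨Y', hY', h⟩ := h4 γ hγ f hf
        obtain ⟨⟨f', rfl⟩, -⟩ := h3 Y' hY'
        exact ⟨f', hY', fun p hp => (h p hp).trans (one_smul _ _)⟩)
    exact ⟨f, hf, x, hx⟩
  · intro N hN hnor
    by_cases h : ∃ q ∈ H, Pool.Agent.Y150.Ch.Bdd hol N q
    · exact Or.inl (Pool.Agent.Y150.Ch.bdd_normal m.mem (fun γ hγ => m.inv γ (hK hγ))
        hstar (fun a ha => m.inv a (hN ha)) hnor h)
    · exact Or.inr fun μ _ hμ => Pool.Agent.Y150.Ch.esc m.mem (fun a ha => m.inv a (hN ha)) h μ hμ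
  · intro N hN hcom
    by_cases h : ∃ q ∈ H, Pool.Agent.Y150.Ch.Bdd hol N q
    · exact Or.inl (Pool.Agent.Y150.Ch.bdd_comm m.mem (fun γ hγ => m.inv γ (hK hγ))
        hstar (fun a ha => m.inv a (hN ha)) hcom h)
    · exact Or.inr fun μ _ hμ => Pool.Agent.Y150.Ch.esc m.mem (fun a ha => m.inv a (hN ha)) h μ hμ
  · intro N hN hcom hnor a ha
    obtain ⟨n, hn, k, h⟩ := Pool.Agent.Y150.Ch.unip m.mem (fun γ hγ => m.inv γ (hK hγ))
      hstar (fun a ha => m.inv a (hN ha)) hcom ⊥ (fun γ hγ a ha => by
        obtain ⟨b, hb, hab⟩ := hnor γ hγ a ha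
        exact ⟨1, Submonoid.one_mem _, b, hb, by rw [pow_one]; exact hab⟩) a ha
    rw [Submonoid.mem_bot.1 hn, pow_one] at h
    exact ⟨k, h⟩
  · intro N hN hcom hnor a ha
    obtain ⟨n, hn, k, h⟩ := Pool.Agent.Y150.Ch.unip m.mem (fun γ hγ => m.inv γ (hK hγ))
      hstar (fun a ha => m.inv a (hN ha)) hcom Pool.Agent.Y150.Ch.Pos
      (fun γ hγ a ha => hnor γ hγ a ha) a ha
    exact ⟨n, hn, k, h⟩
  · exact fun a ha h => Pool.Agent.Y150.Ch.cyc D' m hK hKf ha h

end Pool.Agent.Results.MP_1fa9a4_gt.CommensuratedHolonomy
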